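import Mathlib

set_option autoImplicit false

namespace Pool.Agent.Results.MP_cb1103_lc.Unbounded

open Finset

/-- A `k`-local constraint on functions `K → F`: `k` points of `K` and a proper subset
of `F ^ k` (the allowed value vectors). -/
structure LocalConstraint (F K : Type) (k : ℕ) where
  pts : Fin k → K
  allowed : Set (Fin k → F)
  proper : allowed ≠ Set.univ

/-- The function `f` satisfies the constraint `C`. -/
def Satisfies {F K : Type} {k : ℕ} (f : K → F) (C : LocalConstraint F K k) : Prop :=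
  (fun i => f (C.pts i)) ∈ C.allowed

/-- The constraint `C ∘ π` for the affine map `π x = a * x + b`. -/
def LocalConstraint.comp {F K : Type} [Field K] {k : ℕ} (C : LocalConstraint F K k) (a b : K) :
    LocalConstraint F K k :=
  ⟨fun i => a * C.pts i + b, C.allowed, C.proper⟩

/-- A linear property is affine-invariant if it is stable under all maps
`x ↦ a * x + b` with `a ≠ 0`. -/
def AffineInvariant {F K : Type} [Field F] [Field K] (P : Submodule F (K → F)) : Prop :=
  ∀ f ∈ P, ∀ a b : K, a ≠ 0 → (fun x => f (a * x + b)) ∈ P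

/-- A set of `k`-local constraints characterizes `P` if `P` consists exactly of the functions
satisfying all of them. -/
def Characterizes {F K : Type} [Field F] {k : ℕ} (CC : Set (LocalConstraint F K k))
    (P : Submodule F (K → F)) : Prop :=
  ∀ f : K → F, f ∈ P ↔ ∀ C ∈ CC, Satisfies f C

/-- `P` has a `k`-local characterization. -/
def HasLocalChar {F K : Type} [Field F] (k : ℕ) (P : Submodule F (K → F)) : Prop :=
  ∃ CC : Set (LocalConstraint F K k), Characterizes CC P

/-- `P` has a `k`-single orbit characterization. -/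
def HasSingleOrbitChar {F K : Type} [Field F] [Field K] (k : ℕ) (P : Submodule F (K → F)) :
    Prop :=
  ∃ C : LocalConstraint F K k,
    Characterizes {C' | ∃ a b : K, a ≠ 0 ∧ C' = C.comp a b} P

/-- The least locality of a single orbit characterization of `P`. -/
noncomputable def kPrime {F K : Type} [Field F] [Field K] (P : Submodule F (K → F)) : ℕ :=
  sInf {k | HasSingleOrbitChar k P}

section points

variable {R : Type} [CommRing R]

/-- Six points built from the parameter `c`: the nonzero elements of the two planes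
spanned by `(c+1)n, d` and by `cn, cd`, where `n = c^3+c+1`, `d = c^3+c^2+1`. -/
def pts6 (c : R) : Fin 6 → R :=
  ![(c + 1) * (c ^ 3 + c + 1), c ^ 3 + c ^ 2 + 1,
    (c + 1) * (c ^ 3 + c + 1) + (c ^ 3 + c ^ 2 + 1),
    c * (c ^ 3 + c + 1), c * (c ^ 3 + c ^ 2 + 1),
    c * (c ^ 3 + c + 1) + c * (c ^ 3 + c ^ 2 + 1)]

lemma two_eq_zero' [CharP R 2] : (2 : R) = 0 := by
  have := CharP.cast_eq_zero R 2
  exact_mod_cast this

lemma pts6_sum1 [CharP R 2] (c : R) : ∑ l, pts6 c l = 0 := by
  have h2 := two_eq_zero' (R := R)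
  simp only [Fin.sum_univ_six, pts6]
  simp
  linear_combination (c * (c ^ 3 + c + 1) + (c + 1) * (c ^ 3 + c + 1) +
    c * (c ^ 3 + c ^ 2 + 1) + (c ^ 3 + c ^ 2 + 1)) * h2

lemma pts6_sum3 [CharP R 2] (c : R) : ∑ l, pts6 c l ^ 3 = 0 := by
  have h2 := two_eq_zero' (R := R)
  simp only [Fin.sum_univ_six, pts6]
  simp
  linear_combination (5*c^0 + 15*c^1 + 33*c^2 + 58*c^3 + 78*c^4 + 93*c^5 + 99*c^6 + 84*c^7
    + 66*c^8 + 48*c^9 + 24*c^10 + 12*c^11 + 6*c^12) * h2

lemma pts6_sum5 [CharP R 2] (c : R) : ∑ l, pts6 c l ^ 5 =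
    (c ^ 3 + c ^ 2 + 1) * (c ^ 3 + c + 1) * c ^ 4 * (c + 1) ^ 3 * (c ^ 3 + 1) := by
  have h2 := two_eq_zero' (R := R)
  simp only [Fin.sum_univ_six, pts6]
  simp
  linear_combination (17*c^0 + 85*c^1 + 265*c^2 + 625*c^3 + 1212*c^4 + 2017*c^5 + 2929*c^6
    + 3792*c^7 + 4436*c^8 + 4667*c^9 + 4483*c^10 + 3967*c^11 + 3161*c^12 + 2332*c^13
    + 1604*c^14 + 966*c^15 + 552*c^16 + 295*c^17 + 120*c^18 + 50*c^19 + 18*c^20) * h2

end points

/-- In a field of characteristic two with more than 16 elements the parameter can be chosen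
with nonzero fifth power sum. -/
lemma exists_good_param {F : Type} [Field F] [Fintype F] [CharP F 2]
    (hF : 16 < Fintype.card F) : ∃ c : F, ∑ l, pts6 c l ^ 5 ≠ 0 := by
  classical
  let p : Polynomial F := (Polynomial.X ^ 3 + Polynomial.X ^ 2 + 1) *
    (Polynomial.X ^ 3 + Polynomial.X + 1) * Polynomial.X ^ 4 * (Polynomial.X + 1) ^ 3 *
    (Polynomial.X ^ 3 + 1)
  have hm1 : (Polynomial.X ^ 3 + Polynomial.X ^ 2 + 1 : Polynomial F).Monic := by monicity!
  have hm2 : (Polynomial.X ^ 3 + Polynomial.X + 1 : Polynomial F).Monic := by monicity!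
  have hm3 : (Polynomial.X + 1 : Polynomial F).Monic := by monicity!
  have hm4 : (Polynomial.X ^ 3 + 1 : Polynomial F).Monic := by monicity!
  have hp : p.Monic :=
    (((hm1.mul hm2).mul (Polynomial.monic_X_pow 4)).mul (hm3.pow 3)).mul hm4
  have hdeg : p.natDegree ≤ 16 := by
    have : p.natDegree = 3 + 3 + 4 + 3 * 1 + 3 := by
      simp only [p]
      rw [Polynomial.Monic.natDegree_mul
          (((hm1.mul hm2).mul (Polynomial.monic_X_pow 4)).mul (hm3.pow 3)) hm4,
        Polynomial.Monic.natDegree_mul ((hm1.mul hm2).mul (Polynomial.monic_X_pow 4)) (hm3.pow 3),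
        Polynomial.Monic.natDegree_mul (hm1.mul hm2) (Polynomial.monic_X_pow 4),
        Polynomial.Monic.natDegree_mul hm1 hm2, Polynomial.Monic.natDegree_pow hm3,
        Polynomial.natDegree_X_pow]
      have e1 : (Polynomial.X ^ 3 + Polynomial.X ^ 2 + 1 : Polynomial F).natDegree = 3 := by
        compute_degree!
      have e2 : (Polynomial.X ^ 3 + Polynomial.X + 1 : Polynomial F).natDegree = 3 := by
        compute_degree!
      have e3 : (Polynomial.X + 1 : Polynomial F).natDegree = 1 := by
        compute_degree!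
      have e4 : (Polynomial.X ^ 3 + 1 : Polynomial F).natDegree = 3 := by
        compute_degree!
      rw [e1, e2, e3, e4]
    omega
  by_contra hcon
  push Not at hcon
  apply hp.ne_zero
  apply Polynomial.eq_zero_of_natDegree_lt_card_of_eval_eq_zero' p (univ : Finset F)
  · intro c _
    have := hcon c
    rw [pts6_sum5] at this
    simp only [p]
    simp only [Polynomial.eval_mul, Polynomial.eval_add, Polynomial.eval_pow, Polynomial.eval_X,
      Polynomial.eval_one]
    exact this
  · rw [card_univ]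
    omega

/-- An increasing chain of subspaces of `K ^ k` of length more than `k` has a repetition. -/
lemma chain_stops {K : Type} [Field K] {k m : ℕ} (W : ℕ → Submodule K (Fin k → K))
    (hmono : ∀ i, W i ≤ W (i + 1)) (hk : k < m) : ∃ i < m, W (i + 1) = W i := by
  by_contra hcon
  push Not at hcon
  have hfin : ∀ i ≤ m, i ≤ Module.finrank K (W i) := by
    intro i
    induction i with
    | zero => intro _; exact Nat.zero_le _
    | succ i ih =>
      intro hi
      have h1 := ih (by omega)
      have h2 : W i < W (i + 1) := lt_of_le_of_ne (hmono i) (Ne.symm (hcon i (by omega)))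
      have h3 := Submodule.finrank_lt_finrank_of_lt h2
      omega
  have h1 := hfin m le_rfl
  have h2 := Submodule.finrank_le (W m)
  rw [Module.finrank_fin_fun] at h2
  omega

/-- Duality in `F_2 ^ k`. -/
lemma exists_annihilator {k : ℕ} (W : Submodule (ZMod 2) (Fin k → ZMod 2))
    (v : Fin k → ZMod 2) (hv : v ∉ W) :
    ∃ w : Fin k → ZMod 2, (∀ u ∈ W, ∑ i, w i * u i = 0) ∧ ∑ i, w i * v i ≠ 0 := by
  obtain ⟨phi, hphi, hker⟩ := Submodule.exists_le_ker_of_notMem hv
  have hphi' : ∀ v : Fin k → ZMod 2, phi v = ∑ i, phi (Pi.single i 1) * v i := by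
    intro v
    conv_lhs => rw [← LinearMap.sum_single_apply (fun _ => ZMod 2) v]
    rw [map_sum]
    apply sum_congr rfl
    intro i _
    have : (Pi.single i (v i) : Fin k → ZMod 2) = v i • Pi.single i (1 : ZMod 2) := by
      ext j
      by_cases hj : j = i
      · subst hj; simp
      · simp [hj]
    rw [this, map_smul, smul_eq_mul, mul_comm]
  refine ⟨fun i => phi (Pi.single i 1), fun u hu => ?_, ?_⟩
  · rw [← hphi']
    exact hker hu
  · rw [← hphi']
    exact hphi

section main

set_option linter.unusedSectionVars false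

variable {K : Type} [Field K] [Finite K] [Algebra (ZMod 2) K]

/-- The property cut out by the affine orbits of the six-point parity checks on the
configurations `X 0, ..., X (m-1)`. -/
def SixProp (m : ℕ) (X : ℕ → Fin 6 → K) : Submodule (ZMod 2) (K → ZMod 2) where
  carrier := {f | ∀ i < m, ∀ a b : K, a ≠ 0 → ∑ l, f (a * X i l + b) = 0}
  add_mem' := by
    intro f g hf hg i hi a b ha
    simp only [Pi.add_apply, sum_add_distrib, hf i hi a b ha, hg i hi a b ha, add_zero]
  zero_mem' := by
    intro i _ a b _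
    simp
  smul_mem' := by
    intro c f hf i hi a b ha
    simp only [Pi.smul_apply, smul_eq_mul, ← mul_sum, hf i hi a b ha, mul_zero]

lemma mem_SixProp {m : ℕ} {X : ℕ → Fin 6 → K} {f : K → ZMod 2} :
    f ∈ SixProp m X ↔ ∀ i < m, ∀ a b : K, a ≠ 0 → ∑ l, f (a * X i l + b) = 0 := Iff.rfl

lemma sixProp_affine (m : ℕ) (X : ℕ → Fin 6 → K) : AffineInvariant (SixProp m X) := by
  intro f hf a b ha i hi a' b' ha'
  have := hf i hi (a * a') (a * b' + b) (mul_ne_zero ha ha')
  rw [← this]
  apply sum_congr rfl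
  intro l _
  beta_reduce
  congr 1
  ring

lemma parity_proper (k : ℕ) : {v : Fin (k + 1) → ZMod 2 | ∑ l, v l = 0} ≠ Set.univ := by
  intro h
  have h1 : (Pi.single 0 1 : Fin (k + 1) → ZMod 2) ∈
      {v : Fin (k + 1) → ZMod 2 | ∑ l, v l = 0} := by
    rw [h]; trivial
  simp at h1

/-- The property has a `6`-local characterization. -/
lemma sixProp_local (m : ℕ) (X : ℕ → Fin 6 → K) : HasLocalChar 6 (SixProp m X) := by
  refine ⟨{C | ∃ i < m, ∃ a b : K, a ≠ 0 ∧
    C = ⟨fun l => a * X i l + b, {v | ∑ l, v l = 0}, parity_proper 5⟩}, ?_⟩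
  intro f
  constructor
  · rintro hf C ⟨i, hi, a, b, ha, rfl⟩
    exact hf i hi a b ha
  · intro h i hi a b ha
    exact h _ ⟨i, hi, a, b, ha, rfl⟩

lemma exists_trace_ne {a : K} (ha : a ≠ 0) :
    ∃ b : K, Algebra.trace (ZMod 2) K (b * a) ≠ 0 := by
  have htr := (traceForm_nondegenerate (ZMod 2) K).1 a
  simp_rw [Algebra.traceForm_apply] at htr
  by_contra! hf
  exact ha (htr (fun b => by rw [mul_comm]; exact hf b))

lemma charTwo : CharP K 2 :=
  charP_of_injective_algebraMap (algebraMap (ZMod 2) K).injective 2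

lemma six_const (c : ZMod 2) : ∑ _l : Fin 6, c = 0 := by
  rw [sum_const, card_univ, Fintype.card_fin]
  revert c
  decide

/-- Expansion of the quadratic monomial on an affine image of a weighted point set. -/
lemma expand {ι : Type} (s : Finset ι) (y : ι → K) (w : ι → K) (a b : K) (j : ℕ) :
    ∑ l ∈ s, w l * (a * y l + b) ^ (1 + 2 ^ j) =
      a ^ (1 + 2 ^ j) * ∑ l ∈ s, w l * y l ^ (1 + 2 ^ j) + a * b ^ (2 ^ j) * ∑ l ∈ s, w l * y l
        + b * a ^ (2 ^ j) * ∑ l ∈ s, w l * y l ^ (2 ^ j) + b ^ (1 + 2 ^ j) * ∑ l ∈ s, w l := by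
  have : CharP K 2 := charTwo
  simp only [mul_sum, ← sum_add_distrib]
  apply sum_congr rfl
  intro l _
  rw [pow_add, pow_one, add_pow_char_pow, mul_pow]
  ring

lemma sum_pow_two_pow {ι : Type} (s : Finset ι) (y : ι → K) (j : ℕ) :
    ∑ l ∈ s, y l ^ (2 ^ j) = (∑ l ∈ s, y l) ^ (2 ^ j) := by
  have : CharP K 2 := charTwo
  rw [sum_pow_char_pow]

variable {m : ℕ} {X : ℕ → Fin 6 → K}

lemma quad_mem (h1 : ∀ i < m, ∑ l, X i l = 0) {j : ℕ}
    (hj : ∀ i < m, ∑ l, X i l ^ (1 + 2 ^ j) = 0) (g : K) :
    (fun x : K => Algebra.trace (ZMod 2) K (g * x ^ (1 + 2 ^ j))) ∈ SixProp m X := by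
  intro i hi a b _
  beta_reduce
  rw [← map_sum, ← mul_sum]
  have := expand (univ : Finset (Fin 6)) (X i) (fun _ => (1 : K)) a b j
  simp only [one_mul] at this
  have hc : CharP K 2 := charTwo
  have h6 : ∑ _l : Fin 6, (1 : K) = 0 := by
    rw [sum_const, card_univ, Fintype.card_fin]
    have h2 := two_eq_zero' (R := K)
    rw [nsmul_eq_mul]
    push_cast
    linear_combination 3 * h2
  rw [this, h6, hj i hi, h1 i hi, sum_pow_two_pow, h1 i hi, zero_pow (by positivity)]
  simp

lemma lin_mem (h1 : ∀ i < m, ∑ l, X i l = 0) (j : ℕ) (g : K) :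
    (fun x : K => Algebra.trace (ZMod 2) K (g * x ^ (2 ^ j))) ∈ SixProp m X := by
  intro i hi a b _
  beta_reduce
  have hc : CharP K 2 := charTwo
  rw [← map_sum, ← mul_sum, sum_pow_two_pow, sum_add_distrib, ← mul_sum, h1 i hi]
  have h6 : ∑ _l : Fin 6, b = 0 := by
    rw [sum_const, card_univ, Fintype.card_fin]
    have h2 := two_eq_zero' (R := K)
    rw [nsmul_eq_mul]
    push_cast
    linear_combination 3 * b * h2
  rw [h6, mul_zero, add_zero, zero_pow (by positivity)]
  simp

lemma const_mem (c : ZMod 2) : (fun _ : K => c) ∈ SixProp m X := by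
  intro i hi a b _
  exact six_const c

/-- The key lower bound. -/
lemma no_single_orbit (e : ℕ → ℕ) (h1 : ∀ i < m, ∑ l, X i l = 0)
    (hS : ∀ S : Finset ℕ, S ⊆ range m → ∀ i < m, ∑ l, X i l ^ (1 + 2 ^ (∑ s ∈ S, e s)) = 0)
    (h5 : ∀ i < m, ∑ l, X i l ^ (1 + 2 ^ (e i + e i)) ≠ 0) {k : ℕ} (hk : k < m) :
    ¬ HasSingleOrbitChar k (SixProp m X) := by
  rintro ⟨C, hC⟩
  have hchar : CharP K 2 := charTwo
  set al : Fin k → K := C.pts with hal
  -- the chain of subspaces
  let Fr : ℕ → (Fin k → K) → (Fin k → K) := fun j v l => v l ^ (2 ^ j)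
  have hFrFr : ∀ i j v, Fr i (Fr j v) = Fr (j + i) v := by
    intro i j v
    funext l
    simp only [Fr]
    rw [← pow_mul, ← pow_add]
  let W : ℕ → Submodule K (Fin k → K) := fun i =>
    Submodule.span K {v | ∃ S : Finset ℕ, S ⊆ range i ∧ v = Fr (∑ s ∈ S, e s) al}
  have hmono : ∀ i, W i ≤ W (i + 1) := by
    intro i
    apply Submodule.span_mono
    rintro v ⟨S, hS', hv⟩
    exact ⟨S, hS'.trans (range_mono (Nat.le_succ i)), hv⟩
  obtain ⟨i, him, hWi⟩ := chain_stops W hmono hk
  have hstable : ∀ v ∈ W i, Fr (e i) v ∈ W i := by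
    intro v hv
    induction hv using Submodule.span_induction with
    | mem v hv =>
      obtain ⟨S, hS', rfl⟩ := hv
      rw [hFrFr, ← hWi]
      apply Submodule.subset_span
      have hi : i ∉ S := fun h => by
        have := mem_range.1 (hS' h)
        omega
      refine ⟨insert i S, ?_, ?_⟩
      · intro s hs
        rw [mem_insert] at hs
        rw [mem_range]
        rcases hs with hs | hs
        · omega
        · have := mem_range.1 (hS' hs)
          omega
      · rw [sum_insert hi, add_comm]
    | zero =>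
      have : Fr (e i) 0 = 0 := by
        funext l
        simp [Fr]
      rw [this]
      exact Submodule.zero_mem _
    | add u v _ _ hu hv =>
      have : Fr (e i) (u + v) = Fr (e i) u + Fr (e i) v := by
        funext l
        simp only [Fr, Pi.add_apply]
        rw [add_pow_char_pow]
      rw [this]
      exact Submodule.add_mem _ hu hv
    | smul c v _ hv =>
      have : Fr (e i) (c • v) = c ^ (2 ^ e i) • Fr (e i) v := by
        funext l
        simp only [Fr, Pi.smul_apply, smul_eq_mul]
        rw [mul_pow]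
      rw [this]
      exact Submodule.smul_mem _ _ hv
  have halW : al ∈ W i := by
    apply Submodule.subset_span
    refine ⟨∅, by simp, ?_⟩
    funext l
    simp [Fr]
  have hkey : Fr (e i + e i) al ∈ W i := by
    rw [← hFrFr]
    exact hstable _ (hstable _ halW)
  -- the function which is wrongly accepted
  obtain ⟨be, hbe⟩ := exists_trace_ne (h5 i him)
  set f : K → ZMod 2 := fun x => Algebra.trace (ZMod 2) K (be * x ^ (1 + 2 ^ (e i + e i)))
    with hf
  have hfnot : f ∉ SixProp m X := by
    intro h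
    have := h i him 1 0 one_ne_zero
    simp only [hf, one_mul, add_zero] at this
    rw [← map_sum, ← mul_sum] at this
    exact hbe this
  apply hfnot
  rw [hC f]
  rintro C' ⟨a, b, ha, rfl⟩
  -- values of members of the property on the points
  let V : Submodule (ZMod 2) (Fin k → ZMod 2) :=
    (SixProp m X).map (LinearMap.funLeft (ZMod 2) (ZMod 2) al)
  have hV : ∀ v ∈ V, v ∈ C.allowed := by
    rintro v ⟨g, hg, rfl⟩
    have := (hC g).1 hg C ⟨1, 0, one_ne_zero, by simp [LocalConstraint.comp]⟩
    exact this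
  apply hV
  by_contra hnot
  obtain ⟨w, hw, hwne⟩ := exists_annihilator V _ hnot
  apply hwne
  have htrace : ∀ (g : K) (y : Fin k → K), ∑ l, w l * Algebra.trace (ZMod 2) K (g * y l) =
      Algebra.trace (ZMod 2) K (g * ∑ l, algebraMap (ZMod 2) K (w l) * y l) := by
    intro g y
    rw [mul_sum, map_sum]
    apply sum_congr rfl
    intro l _
    rw [show g * (algebraMap (ZMod 2) K (w l) * y l) = w l • (g * y l) by
      rw [Algebra.smul_def]; ring, map_smul, smul_eq_mul]
  have hann : ∀ n : ℕ, (∀ g : K, (fun x : K => Algebra.trace (ZMod 2) K (g * x ^ n)) ∈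
      SixProp m X) → ∑ l, algebraMap (ZMod 2) K (w l) * al l ^ n = 0 := by
    intro n hn
    by_contra hne
    obtain ⟨g, hg⟩ := exists_trace_ne hne
    apply hg
    rw [← htrace g (fun l => al l ^ n)]
    apply hw
    exact ⟨_, hn g, rfl⟩
  have hlin : ∀ j : ℕ, ∑ l, algebraMap (ZMod 2) K (w l) * al l ^ (2 ^ j) = 0 :=
    fun j => hann _ (lin_mem h1 j)
  have hone : ∑ l, w l = 0 := by
    have := hw _ ⟨_, const_mem (m := m) (X := X) (1 : ZMod 2), rfl⟩
    simpa [LinearMap.funLeft] using this
  have honeK : ∑ l, algebraMap (ZMod 2) K (w l) = 0 := by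
    rw [← map_sum, hone, map_zero]
  have hW0 : ∀ v ∈ W i, ∑ l, algebraMap (ZMod 2) K (w l) * (al l * v l) = 0 := by
    intro v hv
    induction hv using Submodule.span_induction with
    | mem v hv =>
      obtain ⟨S, hS', rfl⟩ := hv
      have hSm : S ⊆ range m := hS'.trans (range_mono him.le)
      have := hann (1 + 2 ^ (∑ s ∈ S, e s)) (quad_mem h1 (hS S hSm))
      rw [← this]
      apply sum_congr rfl
      intro l _
      simp only [Fr]
      rw [pow_add, pow_one]
    | zero => simp
    | add u v _ _ hu hv =>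
      simp only [Pi.add_apply, mul_add, sum_add_distrib, hu, hv, add_zero]
    | smul c v _ hv =>
      have : ∑ l, algebraMap (ZMod 2) K (w l) * (al l * (c • v) l) =
          c * ∑ l, algebraMap (ZMod 2) K (w l) * (al l * v l) := by
        rw [mul_sum]
        apply sum_congr rfl
        intro l _
        simp only [Pi.smul_apply, smul_eq_mul]
        ring
      rw [this, hv, mul_zero]
  have hq : ∑ l, algebraMap (ZMod 2) K (w l) * al l ^ (1 + 2 ^ (e i + e i)) = 0 := by
    rw [← hW0 _ hkey]
    apply sum_congr rfl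
    intro l _
    simp only [Fr]
    rw [pow_add, pow_one]
  have hfin : ∑ l, w l * f (a * al l + b) = 0 := by
    simp only [hf]
    rw [htrace be (fun l => (a * al l + b) ^ (1 + 2 ^ (e i + e i)))]
    rw [expand univ al (fun l => algebraMap (ZMod 2) K (w l)) a b (e i + e i), hq,
      hlin (e i + e i), honeK]
    have := hlin 0
    simp only [pow_zero, pow_one] at this
    rw [this]
    simp
  exact hfin

end main

/-- Every affine-invariant property other than the set of all functions has a single orbit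
characterization (by the constraint reading the function at all points). -/
lemma exists_single_orbit {F K : Type} [Field F] [Field K] [Finite K]
    (P : Submodule F (K → F)) (hP : P ≠ ⊤) (haff : AffineInvariant P) :
    ∃ k, HasSingleOrbitChar k P := by
  let E : K ≃ Fin (Nat.card K) := Finite.equivFin K
  have hprop : {v : Fin (Nat.card K) → F | (fun x => v (E x)) ∈ P} ≠ Set.univ := by
    intro h
    apply hP
    rw [eq_top_iff]
    intro f _
    have : (fun l => f (E.symm l)) ∈ {v : Fin (Nat.card K) → F | (fun x => v (E x)) ∈ P} := by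
      rw [h]; trivial
    simpa using this
  refine ⟨Nat.card K, ⟨E.symm, {v | (fun x => v (E x)) ∈ P}, hprop⟩, fun f => ⟨?_, ?_⟩⟩
  · rintro hf C ⟨a, b, ha, rfl⟩
    have := haff f hf a b ha
    simpa [Satisfies, LocalConstraint.comp] using this
  · intro h
    have := h _ ⟨1, 0, one_ne_zero, rfl⟩
    simpa [Satisfies, LocalConstraint.comp] using this

section arith

variable {F : Type} [Field F] [Finite F] [Algebra (ZMod 2) F] {p : ℕ}

lemma frob_all (hp : Module.finrank (ZMod 2) F = p) (x : F) : x ^ (2 ^ p) = x := by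
  have h1 := FiniteField.pow_finrank_eq_natCard 2 F
  have : Fintype F := Fintype.ofFinite F
  rw [hp, Nat.card_eq_fintype_card] at h1
  rw [h1]
  exact FiniteField.pow_card x

lemma frob_mul (hp : Module.finrank (ZMod 2) F = p) (q : ℕ) (x : F) :
    x ^ (2 ^ (p * q)) = x := by
  induction q with
  | zero => simp
  | succ q ih => rw [Nat.mul_succ, pow_add, pow_mul, ih, frob_all hp]

lemma frob_mod (hp : Module.finrank (ZMod 2) F = p) {j r : ℕ} (h : j ≡ r [MOD p]) (x : F) :
    x ^ (2 ^ j) = x ^ (2 ^ r) := by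
  have hred : ∀ j : ℕ, x ^ (2 ^ j) = x ^ (2 ^ (j % p)) := by
    intro j
    conv_lhs => rw [← Nat.div_add_mod j p]
    rw [pow_add, pow_mul, frob_mul hp]
  rw [hred j, hred r, h]

end arith

/-- For `q = 2` and locality `k = 6` the least locality of a single orbit characterization of an
affine-invariant property with a `k`-local characterization is unbounded. -/
theorem result : ∀ N : ℕ, ∃ t : ℕ, t ≠ 0 ∧
    ∃ P : Submodule (ZMod 2) (GaloisField 2 t → ZMod 2),
      P ≠ ⊤ ∧ AffineInvariant P ∧ HasLocalChar 6 P ∧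
      (∃ k, HasSingleOrbitChar k P) ∧ N < kPrime P := by
  intro N
  -- distinct primes
  let pr : ℕ → ℕ := fun i => Nat.nth Nat.Prime (i + 5)
  have hpr : ∀ i, (pr i).Prime := fun i => Nat.prime_nth_prime _
  have hinj : Function.Injective pr := by
    intro i j hij
    have := (Nat.nth_strictMono Nat.infinite_setOfPred_prime).injective hij
    omega
  have hpr5 : ∀ i, 5 ≤ pr i := by
    intro i
    have := (Nat.nth_strictMono Nat.infinite_setOfPred_prime).le_apply (x := i + 5)
    exact le_trans (by omega) this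
  set m := N + 1 with hm
  set t := ∏ i ∈ range m, pr i with ht
  have ht0 : t ≠ 0 := by
    rw [ht, prod_ne_zero_iff]
    intro i _
    exact (hpr i).ne_zero
  have hfr : Module.finrank (ZMod 2) (GaloisField 2 t) = t := GaloisField.finrank 2 ht0
  -- idempotent exponents
  have he : ∀ i, ∃ e : ℕ, e ≡ 1 [MOD pr i] ∧ ∀ l < m, l ≠ i → e ≡ 0 [MOD pr l] := by
    intro i
    have hcop : (pr i).Coprime (∏ l ∈ (range m).erase i, pr l) := by
      apply Nat.Coprime.prod_right
      intro l hl
      rw [mem_erase] at hl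
      exact (Nat.coprime_primes (hpr i) (hpr l)).2 (fun h => hl.1 (hinj h).symm)
    obtain ⟨e, he1, he2⟩ := Nat.chineseRemainder hcop 1 0
    refine ⟨e, he1, fun l hl hli => ?_⟩
    refine he2.of_dvd (dvd_prod_of_mem pr ?_)
    rw [mem_erase, mem_range]
    exact ⟨hli, hl⟩
  choose e he1 he0 using he
  have hsum : ∀ S : Finset ℕ, S ⊆ range m → ∀ i < m,
      (∑ s ∈ S, e s) ≡ (if i ∈ S then 1 else 0) [MOD pr i] := by
    intro S
    induction S using Finset.induction_on with
    | empty => intro _ i _; simp; rfl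
    | insert a S ha ih =>
      intro hS i hi
      rw [sum_insert ha]
      have haS : a < m := mem_range.1 (hS (mem_insert_self a S))
      have ih' := ih ((subset_insert a S).trans hS) i hi
      by_cases hia : i = a
      · subst hia
        rw [if_neg ha] at ih'
        rw [if_pos (mem_insert_self i S)]
        exact (he1 i).add ih'
      · have h1 : (i ∈ insert a S) ↔ i ∈ S := by
          rw [mem_insert]; tauto
        simp only [h1]
        have h2 := (he0 a i hi hia).add ih'
        rwa [zero_add] at h2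
  -- six points in each subfield
  have hX : ∀ i, ∃ x : Fin 6 → GaloisField 2 t, i < m → (∑ l, x l = 0) ∧
      (∀ j, (j ≡ 0 [MOD pr i] ∨ j ≡ 1 [MOD pr i]) → ∑ l, x l ^ (1 + 2 ^ j) = 0) ∧
      (∀ j, j ≡ 2 [MOD pr i] → ∑ l, x l ^ (1 + 2 ^ j) ≠ 0) := by
    intro i
    by_cases him : i < m
    swap
    · exact ⟨fun _ => 0, fun h => absurd h him⟩
    have hfri : Module.finrank (ZMod 2) (GaloisField 2 (pr i)) = pr i :=
      GaloisField.finrank 2 (hpr i).ne_zero
    have hdvd : Module.finrank (ZMod 2) (GaloisField 2 (pr i)) ∣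
        Module.finrank (ZMod 2) (GaloisField 2 t) := by
      rw [hfri, hfr]
      exact dvd_prod_of_mem pr (mem_range.2 him)
    obtain ⟨io⟩ := FiniteField.nonempty_algHom_of_finrank_dvd hdvd
    have hft : Fintype (GaloisField 2 (pr i)) := Fintype.ofFinite _
    have hcard : 16 < Fintype.card (GaloisField 2 (pr i)) := by
      rw [← FiniteField.pow_finrank_eq_card 2 (GaloisField 2 (pr i)), hfri]
      calc 16 < 2 ^ 5 := by norm_num
        _ ≤ 2 ^ pr i := Nat.pow_le_pow_right (by norm_num) (hpr5 i)
    obtain ⟨c, hc⟩ := exists_good_param hcard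
    have hpow : ∀ j, ∑ l, (io (pts6 c l)) ^ (1 + 2 ^ j) =
        io (∑ l, pts6 c l * (pts6 c l) ^ (2 ^ j)) := by
      intro j
      rw [map_sum]
      apply sum_congr rfl
      intro l _
      rw [pow_add, pow_one, map_mul, map_pow]
    refine ⟨fun l => io (pts6 c l), fun _ => ⟨?_, ?_, ?_⟩⟩
    · rw [← map_sum, pts6_sum1, map_zero]
    · rintro j (hj | hj)
      · rw [hpow]
        have : ∑ l, pts6 c l * (pts6 c l) ^ (2 ^ j) = (∑ l, pts6 c l) ^ 2 := by
          rw [sum_pow_char 2]
          apply sum_congr rfl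
          intro l _
          rw [frob_mod hfri hj]
          ring
        rw [this, pts6_sum1]
        simp
      · rw [hpow]
        have : ∑ l, pts6 c l * (pts6 c l) ^ (2 ^ j) = ∑ l, pts6 c l ^ 3 := by
          apply sum_congr rfl
          intro l _
          rw [frob_mod hfri hj]
          ring
        rw [this, pts6_sum3]
        simp
    · intro j hj
      rw [hpow]
      have : ∑ l, pts6 c l * (pts6 c l) ^ (2 ^ j) = ∑ l, pts6 c l ^ 5 := by
        apply sum_congr rfl
        intro l _
        rw [frob_mod hfri hj]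
        ring
      rw [this]
      exact (map_ne_zero io).2 hc
  choose X hX' using hX
  have h1 : ∀ i < m, ∑ l, X i l = 0 := fun i hi => (hX' i hi).1
  have hS : ∀ S : Finset ℕ, S ⊆ range m → ∀ i < m,
      ∑ l, X i l ^ (1 + 2 ^ (∑ s ∈ S, e s)) = 0 := by
    intro S hSm i hi
    apply (hX' i hi).2.1
    have := hsum S hSm i hi
    by_cases h : i ∈ S
    · rw [if_pos h] at this; exact Or.inr this
    · rw [if_neg h] at this; exact Or.inl this
  have h5 : ∀ i < m, ∑ l, X i l ^ (1 + 2 ^ (e i + e i)) ≠ 0 := by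
    intro i hi
    exact (hX' i hi).2.2 _ ((he1 i).add (he1 i))
  have hno : ∀ k < m, ¬ HasSingleOrbitChar k (SixProp m X) :=
    fun k hk => no_single_orbit e h1 hS h5 hk
  have htop : SixProp m X ≠ ⊤ := by
    intro htop
    obtain ⟨be, hbe⟩ := exists_trace_ne (h5 0 (by omega))
    have hmem : (fun x : GaloisField 2 t =>
        Algebra.trace (ZMod 2) (GaloisField 2 t) (be * x ^ (1 + 2 ^ (e 0 + e 0)))) ∈
        SixProp m X := by
      rw [htop]; trivial
    have := hmem 0 (by omega) 1 0 one_ne_zero
    simp only [one_mul, add_zero] at this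
    rw [← map_sum, ← mul_sum] at this
    exact hbe this
  have hex := exists_single_orbit (SixProp m X) htop (sixProp_affine m X)
  refine ⟨t, ht0, SixProp m X, htop, sixProp_affine m X, sixProp_local m X, hex, ?_⟩
  have hmem : kPrime (SixProp m X) ∈ {k | HasSingleOrbitChar k (SixProp m X)} := Nat.sInf_mem hex
  by_contra hcon
  exact hno _ (by omega) hmem

end Pool.Agent.Results.MP_cb1103_lc.Unbounded
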